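import Pool.Agent.H38.ET8.W247.ET.Stm

/-! # ET-QUAD: re-indexing of the sum over the Fourier coefficients -/

set_option autoImplicit false

open Finset

namespace Pool.Agent.W641.ET

open Pool.Agent.W247.ET

theorem main : Pool.Agent.W247.ET.QUAD_stmt := by
  intro P B N J T y i i' hB hi hi' hT
  set F : ℕ × ℕ → ℝ := fun p => P (p.1 * y) (p.2 * y) * Real.exp (-(((p.1 : ℝ) + p.2) * y)) with hF
  have h1 : ∀ m : ℤ, G P B y m =
      ∑ p ∈ B ×ˢ B, if (p.1 : ℤ) - p.2 = m then F p else 0 := by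
    intro m
    unfold G
    rw [Finset.sum_filter]
  have h2 : SS P B i i' y = ∑ p ∈ B ×ˢ B, ∑ q ∈ B ×ˢ B,
      if p.1 + q.2 + i' = p.2 + q.1 + i then F p * F q else 0 := by
    unfold SS quads
    rw [Finset.sum_filter, Finset.sum_product]
    refine Finset.sum_congr rfl (fun p _ => Finset.sum_congr rfl (fun q _ => ?_))
    split_ifs with h
    · simp only [hF]
      unfold kf
      have h3 : Real.exp (-(((p.1 : ℝ) + p.2 + q.1 + q.2) * y)) =
          Real.exp (-(((p.1 : ℝ) + p.2) * y)) * Real.exp (-(((q.1 : ℝ) + q.2) * y)) := by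
        rw [← Real.exp_add]
        congr 1
        ring
      rw [h3]
      ring
    · rfl
  rw [h2]
  have h4 : ∀ j : ℤ, G P B y (j + i) * G P B y (j + i') =
      ∑ p ∈ B ×ˢ B, ∑ q ∈ B ×ˢ B, (if (p.1 : ℤ) - p.2 = j + i then F p else 0) *
        (if (q.1 : ℤ) - q.2 = j + i' then F q else 0) := by
    intro j
    rw [h1, h1, Finset.sum_mul_sum]
  rw [Finset.sum_congr rfl (fun j _ => h4 j), Finset.sum_comm]
  refine Finset.sum_congr rfl (fun p hp => ?_)
  rw [Finset.sum_comm]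
  refine Finset.sum_congr rfl (fun q hq => ?_)
  have h5 : ∀ j : ℤ, (if (p.1 : ℤ) - p.2 = j + i then F p else 0) *
        (if (q.1 : ℤ) - q.2 = j + i' then F q else 0) =
      if (p.1 : ℤ) - p.2 - i = j then
        (if p.1 + q.2 + i' = p.2 + q.1 + i then F p * F q else 0) else 0 := by
    intro j
    by_cases hA : (p.1 : ℤ) - p.2 - i = j
    · rw [if_pos (show (p.1 : ℤ) - p.2 = j + i by linarith), if_pos hA]
      by_cases hC : p.1 + q.2 + i' = p.2 + q.1 + i
      · rw [if_pos hC, if_pos (show (q.1 : ℤ) - q.2 = j + i' by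
          have : (p.1 : ℤ) + q.2 + i' = p.2 + q.1 + i := by exact_mod_cast hC
          linarith)]
      · rw [if_neg hC, if_neg, mul_zero]
        intro h
        apply hC
        have : (p.1 : ℤ) + q.2 + i' = p.2 + q.1 + i := by linarith
        exact_mod_cast this
    · rw [if_neg (show ¬ ((p.1 : ℤ) - p.2 = j + i) from fun h => hA (by linarith)), if_neg hA,
        zero_mul]
  rw [Finset.sum_congr rfl (fun j _ => h5 j), Finset.sum_ite_eq, if_pos]
  obtain ⟨hp1, hp2⟩ := Finset.mem_product.1 hp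
  obtain ⟨h11, h12⟩ := Finset.mem_Icc.1 (hB hp1)
  obtain ⟨h21, h22⟩ := Finset.mem_Icc.1 (hB hp2)
  rw [Finset.mem_Icc]
  have e1 : (p.1 : ℤ) ≤ N := by exact_mod_cast h12
  have e2 : (p.2 : ℤ) ≤ N := by exact_mod_cast h22
  have e3 : (i : ℤ) ≤ J := by exact_mod_cast hi
  have e4 : (0 : ℤ) ≤ i := Int.natCast_nonneg i
  have e5 : (0 : ℤ) ≤ p.1 := Int.natCast_nonneg _
  have e6 : (0 : ℤ) ≤ p.2 := Int.natCast_nonneg _
  have e7 : (0 : ℤ) ≤ J := Int.natCast_nonneg _
  constructor <;> linarith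

end Pool.Agent.W641.ET
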